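import Pool.Agent.L7h17.OC.Stm

/-!
# Project SE (MP_b7f146_ag): real plane octics with separated variables

THEOREM. A nonsingular real plane curve of degree 8 whose equation is, in suitable real projective
coordinates, a sum `A (x, z) + B (y, z)` has at most 18 ovals, and at most 16 if the coefficients of
`x ^ 8` and `y ^ 8` have the same sign.

PLAN. In the affine plane the curve is `f x + g y = 0`, `f`, `g` polynomials with at most 7 critical
points. The lines are cut into the pieces of monotony of `f` and `g`; in each of the at most `8 · 8`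
boxes the curve is a connected arc (BOX). From every point of the curve one can walk along the curve to
a box where `f` and `g` are both DEcreasing (at most 16 such boxes), or to the last box (if `g` decreases
there), or to the first box (if `g` increases there) (ROW, COL, DESC). So 18 connected sets cover the
curve.
-/

set_option autoImplicit false

open MvPolynomial Filter

namespace Pool.Agent.L7h88.SE

open Pool.Agent.L7h17.OC

/-- The piece number `i` (`0 ≤ i ≤ r`) of the line, cut at the points `c 0 < ... < c (r - 1)`. -/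
def Pc (r : ℕ) (c : ℕ → ℝ) (i : ℕ) : Set ℝ := {x | (0 < i → c (i - 1) ≤ x) ∧ (i < r → x ≤ c i)}

/-- `f` is strictly increasing on the pieces `i` with `e + i` even, strictly decreasing on the other
ones, and it is unbounded at both ends. -/
structure Shape (f : ℝ → ℝ) (r e : ℕ) (c : ℕ → ℝ) : Prop where
  cont : Continuous f
  lt : ∀ i, i + 1 < r → c i < c (i + 1)
  inc : ∀ i ≤ r, Even (e + i) → StrictMonoOn f (Pc r c i)
  dec : ∀ i ≤ r, ¬ Even (e + i) → StrictAntiOn f (Pc r c i)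
  bot₁ : Even e → Tendsto f atBot atBot
  bot₂ : ¬ Even e → Tendsto f atBot atTop
  top₁ : Even (e + r) → Tendsto f atTop atTop
  top₂ : ¬ Even (e + r) → Tendsto f atTop atBot

/-- The affine curve `f x + g y = 0`. -/
def Zs (f g : ℝ → ℝ) : Set (ℝ × ℝ) := {z | f z.1 + g z.2 = 0}

/-- `z` and `w` are joined in `Z`. -/
def Jn (Z : Set (ℝ × ℝ)) (z w : ℝ × ℝ) : Prop := ∃ S ⊆ Z, IsPreconnected S ∧ z ∈ S ∧ w ∈ S

theorem Jn.symm {Z : Set (ℝ × ℝ)} {z w : ℝ × ℝ} (h : Jn Z z w) : Jn Z w z := by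
  obtain ⟨S, h1, h2, h3, h4⟩ := h
  exact ⟨S, h1, h2, h4, h3⟩

theorem Jn.trans {Z : Set (ℝ × ℝ)} {z w v : ℝ × ℝ} (h : Jn Z z w) (h' : Jn Z w v) : Jn Z z v := by
  obtain ⟨S, h1, h2, h3, h4⟩ := h
  obtain ⟨S', h1', h2', h3', h4'⟩ := h'
  exact ⟨S ∪ S', Set.union_subset h1 h1', h2.union w h4 h3' h2', Or.inl h3, Or.inr h4'⟩

theorem Jn.rfl' {Z : Set (ℝ × ℝ)} {z : ℝ × ℝ} (h : z ∈ Z) : Jn Z z z :=
  ⟨{z}, by simpa using h, isPreconnected_singleton, rfl, rfl⟩

/-- Joining is symmetric in the two coordinates. -/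
theorem Jn.swap {f g : ℝ → ℝ} {z w : ℝ × ℝ} (h : Jn (Zs g f) z.swap w.swap) : Jn (Zs f g) z w := by
  obtain ⟨S, h1, h2, h3, h4⟩ := h
  refine ⟨Prod.swap '' S, ?_, h2.image _ continuous_swap.continuousOn, ⟨_, h3, by simp⟩,
    ⟨_, h4, by simp⟩⟩
  rintro _ ⟨u, hu, rfl⟩
  have := h1 hu
  simp only [Zs, Set.mem_ofPred_eq, Prod.fst_swap, Prod.snd_swap] at this ⊢
  linarith

/-- [IMG] 50 lines. The values on an increasing piece. Proof: `⟹`: monotony (the ends of the piece
are in the piece: `c (i-1) < c i`). `⟸`: intermediate value theorem on the piece; at an unbounded end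
(`i = 0`, then `e` is even; `i = r`) use `bot₁`, `top₁`. -/
def S_IMG : Prop := ∀ (g : ℝ → ℝ) (r e : ℕ) (c : ℕ → ℝ), Shape g r e c → ∀ j ≤ r, Even (e + j) →
  ∀ v : ℝ, v ∈ g '' Pc r c j ↔ (0 < j → g (c (j - 1)) ≤ v) ∧ (j < r → v ≤ g (c j))

/-- [ARC] 60 lines. Over a connected set `T` of abscissas the curve is connected in the row `j`.
Proof: `g` is injective, continuous and strictly monotone on the piece `j`, which is order connected;
so `g ''` piece is order connected and the inverse function is continuous there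
(`StrictMonoOn.orderIso`, `OrderIso.continuous`, `orderTopology_of_ordConnected`; for decreasing `g`
use `-g`). The set `S` is the image of `T` under `t ↦ (t, inverse (- f t))`. -/
def S_ARC : Prop := ∀ (f g : ℝ → ℝ) (r e : ℕ) (c : ℕ → ℝ), Continuous f → Shape g r e c →
  ∀ j ≤ r, ∀ T : Set ℝ, IsPreconnected T → (∀ t ∈ T, - f t ∈ g '' Pc r c j) →
  ∀ z ∈ Zs f g, ∀ w ∈ Zs f g, z.1 ∈ T → w.1 ∈ T → z.2 ∈ Pc r c j → w.2 ∈ Pc r c j → Jn (Zs f g) z w

/-- [BOX] 40 lines, may assume `S_ARC`. Two points of the curve in the same box are joined. Proof: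
`T` is the set of the `t` in the piece `i` with `- f t ∈ g '' Pc r' c' j`; it is order connected,
because `f` is monotone or antitone on the piece `i` and `g '' Pc r' c' j` is order connected. -/
def S_BOX : Prop := ∀ (f g : ℝ → ℝ) (r e r' e' : ℕ) (c c' : ℕ → ℝ), Shape f r e c →
  Shape g r' e' c' → ∀ i ≤ r, ∀ j ≤ r', ∀ z ∈ Zs f g, ∀ w ∈ Zs f g, z.1 ∈ Pc r c i →
  w.1 ∈ Pc r c i → z.2 ∈ Pc r' c' j → w.2 ∈ Pc r' c' j → Jn (Zs f g) z w

/-- [RUN] 60 lines. The first exit from a closed condition, to the right. Proof: let `X` be the set of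
the `x ≥ x₀` such that the condition `(p → a ≤ h t) ∧ (q → h t ≤ b)` holds for all `t ∈ [x₀, x]`. If
`X` is unbounded it holds for all `t ≥ x₀`. Otherwise `x₁ = sSup X ∈ X` (closedness), and the condition
fails at some `t ∈ (x₁, x₁ + ε)` for each `ε > 0`; one of the two parts fails for arbitrarily small
`ε`; by continuity and the condition at `x₁` the value there is `a`, resp. `b`. -/
def S_RUN : Prop := ∀ (h : ℝ → ℝ) (p q : Prop) (a b x₀ : ℝ), Continuous h →
  ((p → a ≤ h x₀) ∧ (q → h x₀ ≤ b)) →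
  (∀ t, x₀ ≤ t → (p → a ≤ h t) ∧ (q → h t ≤ b)) ∨
  ∃ x₁, x₀ ≤ x₁ ∧ (∀ t, x₀ ≤ t → t ≤ x₁ → (p → a ≤ h t) ∧ (q → h t ≤ b)) ∧
    ((p ∧ h x₁ = a ∧ ∀ ε > 0, ∃ t, x₁ < t ∧ t < x₁ + ε ∧ h t < a) ∨
      (q ∧ h x₁ = b ∧ ∀ ε > 0, ∃ t, x₁ < t ∧ t < x₁ + ε ∧ b < h t))

/-- [LOC] 70 lines. The type of the piece on the right and on the left of a point. Proof: `b` is in a
piece `j` which contains an interval `[b, b + δ]` (take `j` minimal with `j = r` or `b < c j`); `g` is
strictly monotone there, so its type is determined by the sign of `g t - g b` for one small `t > b`.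
On the left in the same way, with `j` maximal with `j = 0` or `c (j - 1) < b`. -/
def S_LOC : Prop := ∀ (g : ℝ → ℝ) (r e : ℕ) (c : ℕ → ℝ), Shape g r e c → ∀ b : ℝ,
  ((∀ ε > 0, ∃ t, b < t ∧ t < b + ε ∧ g t < g b) → ∃ j ≤ r, ¬ Even (e + j) ∧ b ∈ Pc r c j) ∧
  ((∀ ε > 0, ∃ t, b < t ∧ t < b + ε ∧ g b < g t) → ∃ j ≤ r, Even (e + j) ∧ b ∈ Pc r c j) ∧
  ((∀ ε > 0, ∃ t, b - ε < t ∧ t < b ∧ g b < g t) → ∃ j ≤ r, ¬ Even (e + j) ∧ b ∈ Pc r c j) ∧
  ((∀ ε > 0, ∃ t, b - ε < t ∧ t < b ∧ g t < g b) → ∃ j ≤ r, Even (e + j) ∧ b ∈ Pc r c j ∧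
    (0 < j → c (j - 1) < b))

/-- Where the walks end: a box in which both functions decrease, or the last box (`g` decreasing), or
the first box (`g` increasing). -/
def Target (r e r' e' : ℕ) (c c' : ℕ → ℝ) (w : ℝ × ℝ) : Prop :=
  ∃ i ≤ r, ∃ j ≤ r', w.1 ∈ Pc r c i ∧ w.2 ∈ Pc r' c' j ∧
    ((¬ Even (e + i) ∧ ¬ Even (e' + j)) ∨ (i = r ∧ j = r' ∧ ¬ Even (e' + r')) ∨
      (i = 0 ∧ j = 0 ∧ Even e'))

/-- [ROW] 100 lines, may assume `S_IMG S_ARC S_RUN S_LOC`. Walking to the left in a row `j` where `g`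
increases (`f` decreases on its first piece). Proof: S_RUN for `h t = - f (-t)`, from `- z.1`,
`p = (0 < j)`, `a = g (c' (j-1))`, `q = (j < r')`, `b = g (c' j)` (by S_IMG the condition says
`- f t ∈ g '' Pc r' c' j`). No exit: as `f → ∞` at `-∞`, `p` is false, so `j = 0`, `e'` is even; go to
`x = min z.1 (c 0)` (`x = z.1` if `r = 0`) by S_ARC: Target (third kind). Exit at `x₁` with
`- f x₁ = g (c' (j-1))`, `f t > f x₁` for `t` near `x₁` on the left: `x₁` is in a decreasing piece by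
S_LOC, and `c' (j-1)` is in the decreasing piece `j - 1`: Target. Exit with `- f x₁ = g (c' j)`,
`f t < f x₁`: `x₁` is in an increasing piece `i`, `c (i-1) < x₁` (S_LOC; `i > 0` since `e` is odd). -/
def S_ROW : Prop := ∀ (f g : ℝ → ℝ) (r e r' e' : ℕ) (c c' : ℕ → ℝ), Shape f r e c →
  Shape g r' e' c' → ¬ Even e → ∀ z ∈ Zs f g, ∀ j ≤ r', Even (e' + j) → z.2 ∈ Pc r' c' j →
  (∃ w, Jn (Zs f g) z w ∧ Target r e r' e' c c' w) ∨
  ∃ w, Jn (Zs f g) z w ∧ w.1 ≤ z.1 ∧ ∃ i ≤ r, Even (e + i) ∧ 0 < i ∧ w.1 ∈ Pc r c i ∧ c (i - 1) < w.1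

/-- [COL] 100 lines, may assume `S_IMG S_ARC S_RUN S_LOC`. Walking upwards in a column `i` where `f`
increases (so `i > 0`). Proof: S_RUN for `h t = - g t`, from `z.2`, `p = True`, `a = f (c (i-1))`,
`q = (i < r)`, `b = f (c i)` (S_IMG for `f`; S_ARC for `g, f` and `Jn.swap`). No exit: `g` is bounded
above on the right, so `e' + r'` is odd and `g → -∞`, hence `i = r`; go to `y = max z.2 (c' (r'-1))`
(`y = z.2` if `r' = 0`): Target (second kind). Exit at `y₁` with `- g y₁ = f (c (i-1))`, `g t > g y₁` for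
`t` near `y₁` on the right: `y₁` is in an increasing piece `j` of `g` (S_LOC): second alternative. Exit
with `- g y₁ = f (c i)`, `g t < g y₁`: `y₁` is in a decreasing piece, `c i` is in the decreasing piece
`i + 1`: Target. -/
def S_COL : Prop := ∀ (f g : ℝ → ℝ) (r e r' e' : ℕ) (c c' : ℕ → ℝ), Shape f r e c →
  Shape g r' e' c' → ∀ z ∈ Zs f g, ∀ i ≤ r, Even (e + i) → 0 < i → z.1 ∈ Pc r c i →
  (∃ w, Jn (Zs f g) z w ∧ Target r e r' e' c c' w) ∨
  ∃ w, Jn (Zs f g) z w ∧ w.1 = c (i - 1) ∧ ∃ j ≤ r', Even (e' + j) ∧ w.2 ∈ Pc r' c' j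

/-- [DESC] 60 lines, may assume `S_ROW S_COL`. Every point is joined to a target. Proof: first for
`z.1` in an increasing piece `i` (`i > 0` since `e` is odd), by strong induction on `i`: S_COL, then
S_ROW at the new point `w`, `w.1 = c (i-1)`; the second alternative of S_ROW gives a point in an
increasing piece `i₂` with `c (i₂ - 1) < c (i - 1)`, so `i₂ < i`. If `z.1` is in no increasing piece it
is in a decreasing one (every point is in a piece); if `z.2` is in a decreasing piece `z` is a target,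
otherwise S_ROW and the first case. -/
def S_DESC : Prop := ∀ (f g : ℝ → ℝ) (r e r' e' : ℕ) (c c' : ℕ → ℝ), Shape f r e c →
  Shape g r' e' c' → ¬ Even e → ∀ z ∈ Zs f g, ∃ w, Jn (Zs f g) z w ∧ Target r e r' e' c c' w

/-- [CNT] 90 lines, may assume `S_BOX S_DESC`. The cover. Proof: for a pair `(i, j)` let `A i j` be the
set of the `z` which are joined to a point of the curve in the box `(i, j)`; it is preconnected by S_BOX
(any two points of it are joined: `isPreconnected_of_forall_pair` or the union of the sets `S`), and a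
subset of the curve. `r ≤ 7`, `e` odd: the decreasing pieces of `f` are `i = 0, 2, 4, 6`, at most four;
those of `g` (`r' ≤ 7`) are among `0, 2, 4, 6` (`e'` odd) or among `1, 3, 5, 7` (`e'` even). Number the
16 pairs by `Fin 16`; the other two sets are those of the last and of the first box (not needed if `e'`
is odd and `e' + r'` is even). -/
def S_CNT : Prop := ∀ (f g : ℝ → ℝ) (r e r' e' : ℕ) (c c' : ℕ → ℝ), Shape f r e c →
  Shape g r' e' c' → ¬ Even e → r ≤ 7 → r' ≤ 7 →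
  (∃ A : Fin 18 → Set (ℝ × ℝ), (∀ k, IsPreconnected (A k)) ∧ Zs f g = ⋃ k, A k) ∧
  (¬ Even e' → Even (e' + r') →
    ∃ A : Fin 16 → Set (ℝ × ℝ), (∀ k, IsPreconnected (A k)) ∧ Zs f g = ⋃ k, A k)

/-- [ALT] 90 lines. Merging adjacent pieces of the same type. Proof: strong induction on `R`. If the
types of all pairs of adjacent pieces differ, they alternate: `e = 0` or `1` by the type of the piece
`0`. Otherwise the pieces `i`, `i + 1` are both increasing (or both decreasing): remove the point `c i`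
(`c' j = c j` for `j < i`, `c' j = c (j+1)` for `j ≥ i`); `StrictMonoOn.union` at the point `c i`. -/
def S_ALT : Prop := ∀ (f : ℝ → ℝ) (R : ℕ) (c : ℕ → ℝ), (∀ i, i + 1 < R → c i < c (i + 1)) →
  (∀ i ≤ R, StrictMonoOn f (Pc R c i) ∨ StrictAntiOn f (Pc R c i)) →
  ∃ r ≤ R, ∃ (e : ℕ) (c' : ℕ → ℝ), (∀ i, i + 1 < r → c' i < c' (i + 1)) ∧
    (∀ i ≤ r, Even (e + i) → StrictMonoOn f (Pc r c' i)) ∧
    (∀ i ≤ r, ¬ Even (e + i) → StrictAntiOn f (Pc r c' i))

/-- [PDE] 80 lines. The pieces of monotony of a polynomial. Proof: `c` are the roots of the derivative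
in increasing order (`Finset.orderEmbOfFin` of `derivative.roots.toFinset`); `R ≤ natDegree - 1`
(`card_roots'`, `natDegree_derivative_le`). In the interior of a piece the derivative has no zero, so
it has a constant sign (intermediate value theorem); `strictMonoOn_of_deriv_pos`. -/
def S_PDE : Prop := ∀ p : Polynomial ℝ, 1 ≤ p.natDegree → ∃ (R : ℕ) (c : ℕ → ℝ),
  R + 1 ≤ p.natDegree ∧ (∀ i, i + 1 < R → c i < c (i + 1)) ∧
  ∀ i ≤ R, StrictMonoOn (fun x => p.eval x) (Pc R c i) ∨ StrictAntiOn (fun x => p.eval x) (Pc R c i)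

/-- [SHP] 60 lines, may assume `S_ALT S_PDE`. Proof: it remains to see the limits at the ends. A
polynomial of positive degree tends to `∞` or `-∞` at `∞` (`Polynomial.tendsto_atTop_iff_leadingCoeff_nonneg`,
`Polynomial.tendsto_atBot_iff_leadingCoeff_nonpos`) and at `-∞` (compose with `-X`); which one follows
from the monotony on the first and last piece. -/
def S_SHP : Prop := ∀ p : Polynomial ℝ, 1 ≤ p.natDegree → ∃ (r e : ℕ) (c : ℕ → ℝ),
  r + 1 ≤ p.natDegree ∧ Shape (fun x => p.eval x) r e c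

/-- The form `∑ a i x^i z^(8-i) + ∑ b i y^i z^(8-i)` of degree 8 with separated variables. -/
noncomputable def sep (a b : ℕ → ℝ) : MvPolynomial (Fin 3) ℝ :=
  ∑ i ∈ Finset.range 9, (C (a i) * X 0 ^ i + C (b i) * X 1 ^ i) * X 2 ^ (8 - i)

/-- The polynomial `∑ a i t^i`. -/
noncomputable def pol (a : ℕ → ℝ) : Polynomial ℝ :=
  ∑ i ∈ Finset.range 9, Polynomial.C (a i) * Polynomial.X ^ i

/-- The projective curve is covered by `N` connected sets. -/
def Cov (N : ℕ) (F : MvPolynomial (Fin 3) ℝ) : Prop :=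
  ∃ A : Fin N → Set (Fin 3 → ℝ), (∀ j, IsPreconnected (A j)) ∧ (∀ j, A j ⊆ realCone F) ∧
    ∀ v ∈ realCone F, ∃ t : ℝ, t ≠ 0 ∧ ∃ j, t • v ∈ A j

/-- [NS] 80 lines. Proof: if `a 8 = b 8 = 0` then `F = z G` and `G (x, y, 0) = a 7 x^7 + b 7 y^7` has a
complex zero `(x, y) ≠ 0`, a singular point of `F`. If `a 8 = a 7 = 0` the point `(1, 0, 0)` is
singular, if `b 8 = b 7 = 0` the point `(0, 1, 0)`. -/
def S_NS : Prop := ∀ a b : ℕ → ℝ, Nonsing (sep a b) →
  (a 8 ≠ 0 ∨ b 8 ≠ 0) ∧ (a 8 ≠ 0 ∨ a 7 ≠ 0) ∧ (b 8 ≠ 0 ∨ b 7 ≠ 0)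

/-- [INF] 100 lines. The points at infinity are limits of points of the affine part. Proof: such a `w`
has `a 8 x^8 + b 8 y^8 = 0`. If `b 8 = 0` then `x = 0`, `w = (0, y, 0)`; if `b 8 > 0` there is none. For
`b 8 < 0` (so `x, y ≠ 0`) `x ↦ F (x, y, 0)` changes its sign at `w`; for small `ε` the values at
`x ± ε` have different signs, also at `(x ± ε, y, s)` for small `s ≠ 0`: intermediate value theorem. For
`b 8 = 0`, `b 7 ≠ 0`: `F (ε, y, 0) = a 8 ε^8 > 0`, so `F (ε, y, s) > 0` for small `s`, and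
`F (0, y, s) = b 7 y^7 s + O(s^2) < 0` for small `s ≠ 0` of the right sign. -/
def S_INF : Prop := ∀ a b : ℕ → ℝ, 0 < a 8 → (b 8 ≠ 0 ∨ b 7 ≠ 0) → ∀ w ∈ realCone (sep a b),
  w 2 = 0 → w ∈ closure {v | v ∈ realCone (sep a b) ∧ v 2 ≠ 0}

/-- [PRJ] 100 lines, may assume `S_INF`. From the affine cover to the projective one. Proof: for
`z ≠ 0`: `F (x, y, z) = z^8 (pol a (x/z) + pol b (y/z))`. Let `v (x, y) = (x, y, 1) / |(x, y, 1)|`
(continuous, Euclidean norm `√(x²+y²+1)`), `A' j = closure (v '' A j)`: preconnected, contained in the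
closed set `{F = 0}` and in the unit sphere. An affine point is covered. For a point `w` at infinity,
`w / |w|` is by S_INF in the closure of `⋃ j, v '' A j ∪ - (v '' A j)` (finite union), so `w / |w|` or
`- w / |w|` is in some `A' j`. -/
def S_PRJ : Prop := ∀ (a b : ℕ → ℝ) (N : ℕ), 0 < a 8 → (b 8 ≠ 0 ∨ b 7 ≠ 0) →
  (∃ A : Fin N → Set (ℝ × ℝ), (∀ k, IsPreconnected (A k)) ∧
    Zs (fun x => (pol a).eval x) (fun x => (pol b).eval x) = ⋃ k, A k) → Cov N (sep a b)

/-- [WLG] 60 lines. Symmetries of the covering property. Proof: `-F` has the same cone; the interchange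
of the first two coordinates is a homeomorphism of `ℝ³`. -/
def S_WLG : Prop := ∀ (a b : ℕ → ℝ) (N : ℕ), (Cov N (sep a b) → Cov N (sep (-a) (-b))) ∧
  (Cov N (sep a b) → Cov N (sep b a))

/-- [FIN] 60 lines, may assume `S_CNT S_SHP S_NS S_PRJ S_WLG` and the parts `S_TOP`, `S_TRANS` of
project OC. The theorem. -/
def S_FIN : Prop := ∀ (F : MvPolynomial (Fin 3) ℝ) (M : Matrix (Fin 3) (Fin 3) ℝ) (a b : ℕ → ℝ),
  IsUnit M → change M F = sep a b → Nonsing F → ∀ k, SplitsInto k F →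
    k ≤ 18 ∧ (0 < a 8 * b 8 → k ≤ 16)

end Pool.Agent.L7h88.SE
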